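import Pool.Agent.Y754.SD.Pairs
import Pool.Agent.Y754.SD.Block

/-!
# Upper and lower relative density: the answers are opposite

For the upper relative density no set of upper Banach density zero has the property of Q1 (and
`1 - η` is optimal), whereas for the lower relative density, hence for the relative density, a
suitable set of upper Banach density zero has it.
-/

set_option autoImplicit false

open Filter Finset

namespace Pool.Agent.Results.MP_5a03e9_nt.DensityDichotomy

open Pool.Agent.Results.MP_5a03e9_nt.NonSyndetic Pool.Agent.Y754.SD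

theorem result :
    (∀ E : Set ℕ, E.Infinite → upperBanachDensity E = 0 → ∀ η : ℝ, 0 < η →
      ∃ A ⊆ E, 1 - η ≤ relUpperDensity E A ∧ ¬ IsSyndetic (diffSet A)) ∧
    (∃ E : Set ℕ, E.Infinite ∧ upperBanachDensity E = 0 ∧
      ∀ A ⊆ E, relUpperDensity E A = 1 → diffSet A = Set.univ) ∧
    (∃ E : Set ℕ, E.Infinite ∧ upperBanachDensity E = 0 ∧
      ∀ A ⊆ E, 0 < relLowerDensity E A → IsSyndetic (diffSet A) ∧
        ∀ S : Set ℕ, S.Infinite → ∃ x ∈ S, ∃ y ∈ S, x < y ∧ ((y : ℤ) - x) ∈ diffSet A) :=
  ⟨fun E hE hE0 η hη => NonSyndetic.result E hE hE0 η hη,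
    ⟨pairSet, pairSet_infinite, pairSet_banach, fun A hA hd => pairSet_diff A hA hd⟩,
    ⟨blockSet, blockSet_infinite, blockSet_banach,
      fun A hA hd => ⟨block_syndetic A hA hd, fun S hS => block_delta A hA hd S hS⟩⟩⟩

end Pool.Agent.Results.MP_5a03e9_nt.DensityDichotomy
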